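import Pool.Agent.R217.NS.Main

set_option autoImplicit false

open MeasureTheory Pool.Agent.R217.NS

namespace Pool.Agent.Results.MP_a38b16_an.NotNatural

/-- For `N = 1`, `Ω = ℝ`, `lam1 = 1`, `lam2 = 5`, `mu1 = 1`, `mu2 = 16` and
`beta = 4 = sqrt (mu1 * mu2)`, the infimum of the energy on the Nehari type set is attained at a
pair which is not a weak solution of the system. -/
theorem result :
    (4 : ℝ) = Real.sqrt (1 * 16) ∧
    ∃ u g v h : ℝ → ℝ, InN 1 5 1 16 4 u g v h ∧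
      (∀ u' g' v' h' : ℝ → ℝ, InN 1 5 1 16 4 u' g' v' h' →
        En 1 5 1 16 4 u g v h ≤ En 1 5 1 16 4 u' g' v' h') ∧
      ¬ IsSol 1 5 1 16 4 u g v h := by
  refine ⟨?_, _, _, _, _, pair_mem, ?_, not_sol⟩
  · rw [show (1 * 16 : ℝ) = 4 ^ 2 by norm_num, Real.sqrt_sq (by norm_num)]
  · intro u' g' v' h' hN
    rw [pair_En]
    exact lower hN

end Pool.Agent.Results.MP_a38b16_an.NotNatural
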